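import Pool.Agent.PRT.StmtsC

/-!
# PRT, row GRO: the growth of the first derivative
-/

set_option autoImplicit false

namespace Pool.Agent.PRT.H36

open Set MeasureTheory
open scoped ContDiff

theorem ip_self_ge (a : E) : ‖a‖ ^ 2 ≤ ip a a := by
  rw [Prod.norm_def]
  unfold ip
  rcases le_total ‖a.1‖ ‖a.2‖ with h | h
  · rw [max_eq_right h, Real.norm_eq_abs, sq_abs]
    nlinarith [sq_nonneg a.1]
  · rw [max_eq_left h, Real.norm_eq_abs, sq_abs]
    nlinarith [sq_nonneg a.2]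

theorem norm_jj (a : E) : ‖jj a‖ = ‖a‖ := by
  simp only [jj, Prod.norm_def, norm_neg]
  exact max_comm _ _

theorem norm_e2_le (a : E) (ha : 0 < ‖a‖) : ‖e2 a‖ ≤ 1 / ‖a‖ := by
  unfold e2
  have h := ip_self_ge a
  have hpos : 0 < ip a a := lt_of_lt_of_le (by positivity) h
  rw [norm_smul, norm_jj, norm_inv, Real.norm_eq_abs, abs_of_pos hpos, inv_mul_le_iff₀ hpos,
    mul_one_div, le_div_iff₀ ha]
  nlinarith

theorem basis_id (a u : E) (ha : 0 < ‖a‖) : u = cr u (e2 a) • a + cr a u • e2 a := by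
  have h := ip_self_ge a
  have hpos : 0 < ip a a := lt_of_lt_of_le (by positivity) h
  have hne : ip a a ≠ 0 := ne_of_gt hpos
  apply Prod.ext
  · simp only [cr, e2, jj, Prod.fst_add, Prod.smul_fst, Prod.smul_snd, smul_eq_mul]
    field_simp
    unfold ip
    ring
  · simp only [cr, e2, jj, Prod.snd_add, Prod.smul_fst, Prod.smul_snd, smul_eq_mul]
    field_simp
    unfold ip
    ring

theorem iter_contDiff (g : E → E) (hg : ContDiff ℝ ∞ g) (j : ℕ) : ContDiff ℝ ∞ (g^[j]) := by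
  induction j with
  | zero => simpa using contDiff_id
  | succ j ih =>
    rw [Function.iterate_succ']
    exact hg.comp ih

theorem fderiv_iter_succ (g : E → E) (hg : ContDiff ℝ ∞ g) (j : ℕ) (z u : E) :
    fderiv ℝ (g^[j + 1]) z u = fderiv ℝ g (g^[j] z) (fderiv ℝ (g^[j]) z u) := by
  rw [Function.iterate_succ']
  rw [fderiv_comp z (hg.differentiable (by simp)).differentiableAt
    ((iter_contDiff g hg j).differentiable (by simp)).differentiableAt]
  rfl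

theorem gro (low : LowStmt) (bas : BasStmt) (rec' : RecStmt) : GroStmt := by
  obtain ⟨l1, hlow⟩ := low
  obtain ⟨l2, hbas⟩ := bas
  refine ⟨max (max l1 l2) 64, ?_⟩
  intro g v C l N n hl hN hg hn j hj z
  have hl1 : l1 ≤ l := (le_max_left _ _).trans ((le_max_left _ _).trans hl)
  have hl2 : l2 ≤ l := (le_max_right _ _).trans ((le_max_left _ _).trans hl)
  have hl64 : (64 : ℝ) ≤ l := (le_max_right _ _).trans hl
  have h1l : (1 : ℝ) ≤ l := hg.l1
  have hl0 : 0 < l := by linarith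
  set ε := ‖v‖ with hε
  have hε0 : 0 < ε := hg.v0
  have hεl : ε * l ^ 400 ≤ 1 := by
    rw [← hg.lN]
    exact mul_le_mul_of_nonneg_left (pow_le_pow_right₀ h1l (by omega)) hε0.le
  have hφ : ∀ z, ‖g z - z‖ ≤ ε * l ^ 8 := by
    intro z
    have := hg.bd 0 (by omega) z
    rw [norm_iteratedFDeriv_zero] at this
    simpa using this
  have hlo : ∀ z, ε ≤ ‖g z - z‖ * l ^ 68 := fun z => hlow g v C l N hl1 hN hg z
  have hφ0 : ∀ z, 0 < ‖g z - z‖ := by
    intro z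
    by_contra hh
    have h0 : ‖g z - z‖ = 0 := le_antisymm (not_lt.mp hh) (norm_nonneg _)
    have := hlo z
    rw [h0, zero_mul] at this
    linarith
  have he2 : ∀ z, ‖e2 (g z - z)‖ ≤ l ^ 68 / ε := by
    intro z
    refine (norm_e2_le _ (hφ0 z)).trans ?_
    rw [div_le_div_iff₀ (hφ0 z) hε0, one_mul, mul_comm]
    exact hlo z
  apply ContinuousLinearMap.opNorm_le_bound _ (by positivity)
  intro u
  have hU : 0 ≤ ‖u‖ := norm_nonneg u
  -- the recursion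
  set x : ℕ → ℝ := fun j => cr (fderiv ℝ (g^[j]) z u) (e2 (g (g^[j] z) - g^[j] z)) with hx
  set y : ℕ → ℝ := fun j => cr (g (g^[j] z) - g^[j] z) (fderiv ℝ (g^[j]) z u) with hy
  have hrec := rec' ε l n x y hε0 hl64 hεl hn
    (by
      intro i _
      have := (hbas g v C l N hl2 hN hg hlo (g^[i] z) (fderiv ℝ (g^[i]) z u)).1
      simp only [hx, hy]
      rw [fderiv_iter_succ g hg.lf.sm i z u, Function.iterate_succ_apply']
      exact this)
    (by
      intro i _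
      have := (hbas g v C l N hl2 hN hg hlo (g^[i] z) (fderiv ℝ (g^[i]) z u)).2
      simp only [hx, hy]
      rw [fderiv_iter_succ g hg.lf.sm i z u, Function.iterate_succ_apply']
      exact this) j hj
  have hu0 : fderiv ℝ (g^[0]) z u = u := by
    rw [Function.iterate_zero, fderiv_id]
    rfl
  have hx0 : |x 0| ≤ 2 * ‖u‖ * (l ^ 68 / ε) := by
    simp only [hx]
    rw [hu0]
    refine (abs_cr_le _ _).trans ?_
    exact mul_le_mul_of_nonneg_left (he2 _) (by positivity)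
  have hy0 : |y 0| ≤ 2 * (ε * l ^ 8) * ‖u‖ := by
    simp only [hy]
    rw [hu0]
    refine (abs_cr_le _ _).trans ?_
    exact mul_le_mul_of_nonneg_right (mul_le_mul_of_nonneg_left (hφ _) (by norm_num)) hU
  have hxj : |x j| ≤ ‖u‖ * (l ^ 312 / ε) := by
    refine hrec.1.trans ?_
    have h1 : 2 * |x 0| ≤ 2 * (2 * ‖u‖ * (l ^ 68 / ε)) := by linarith
    have h2 : (ε ^ 2)⁻¹ * l ^ 303 * |y 0| ≤ (ε ^ 2)⁻¹ * l ^ 303 * (2 * (ε * l ^ 8) * ‖u‖) :=
      mul_le_mul_of_nonneg_left hy0 (by positivity)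
    have h3 : 2 * (2 * ‖u‖ * (l ^ 68 / ε)) = ‖u‖ * (4 * l ^ 68 / ε) := by ring
    have h4 : (ε ^ 2)⁻¹ * l ^ 303 * (2 * (ε * l ^ 8) * ‖u‖) = ‖u‖ * (2 * l ^ 311 / ε) := by
      field_simp
    have h5 : 4 * l ^ 68 / ε + 2 * l ^ 311 / ε ≤ l ^ 312 / ε := by
      rw [← add_div]
      apply div_le_div_of_nonneg_right _ hε0.le
      have h6 : l ^ 68 ≤ l ^ 311 := pow_le_pow_right₀ h1l (by norm_num)
      have h7 : l ^ 312 = l * l ^ 311 := by ring
      have h8 : 0 ≤ l ^ 311 := by positivity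
      rw [h7]
      nlinarith
    calc 2 * |x 0| + (ε ^ 2)⁻¹ * l ^ 303 * |y 0|
        ≤ ‖u‖ * (4 * l ^ 68 / ε) + ‖u‖ * (2 * l ^ 311 / ε) := by
          rw [← h3, ← h4]
          exact add_le_add h1 h2
      _ = ‖u‖ * (4 * l ^ 68 / ε + 2 * l ^ 311 / ε) := by ring
      _ ≤ ‖u‖ * (l ^ 312 / ε) := mul_le_mul_of_nonneg_left h5 hU
  have hyj : |y j| ≤ 5 * (ε * l ^ 8) * ‖u‖ := by
    refine hrec.2.trans ?_
    have h1 : 2 * |y 0| ≤ 2 * (2 * (ε * l ^ 8) * ‖u‖) := by linarith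
    have h2 : ε ^ 3 * l ^ 43 * |x 0| ≤ ε ^ 3 * l ^ 43 * (2 * ‖u‖ * (l ^ 68 / ε)) :=
      mul_le_mul_of_nonneg_left hx0 (by positivity)
    have h3 : ε ^ 3 * l ^ 43 * (2 * ‖u‖ * (l ^ 68 / ε)) =
        (ε * l ^ 8) * ‖u‖ * (2 * (ε * l ^ 103)) := by
      field_simp
    have h4 : 2 * (ε * l ^ 103) ≤ 1 := by
      have h5 : l ^ 104 ≤ l ^ 400 := pow_le_pow_right₀ h1l (by norm_num)
      have h6 : l ^ 104 = l * l ^ 103 := by ring
      have h7 : 0 ≤ l ^ 103 := by positivity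
      have h8 : 2 * l ^ 103 ≤ l ^ 400 := by
        refine le_trans ?_ h5
        rw [h6]
        nlinarith
      calc 2 * (ε * l ^ 103) = ε * (2 * l ^ 103) := by ring
        _ ≤ ε * l ^ 400 := mul_le_mul_of_nonneg_left h8 hε0.le
        _ ≤ 1 := hεl
    have h5 : (ε * l ^ 8) * ‖u‖ * (2 * (ε * l ^ 103)) ≤ (ε * l ^ 8) * ‖u‖ * 1 :=
      mul_le_mul_of_nonneg_left h4 (by positivity)
    linarith
  have hid := basis_id (g (g^[j] z) - g^[j] z) (fderiv ℝ (g^[j]) z u) (hφ0 _)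
  have hfin : ‖fderiv ℝ (g^[j]) z u‖ ≤ |x j| * (ε * l ^ 8) + |y j| * (l ^ 68 / ε) := by
    rw [hid]
    refine (norm_add_le _ _).trans ?_
    rw [norm_smul, norm_smul, Real.norm_eq_abs, Real.norm_eq_abs]
    exact add_le_add (mul_le_mul_of_nonneg_left (hφ _) (abs_nonneg _))
      (mul_le_mul_of_nonneg_left (he2 _) (abs_nonneg _))
  refine hfin.trans ?_
  have h1 : |x j| * (ε * l ^ 8) ≤ ‖u‖ * (l ^ 312 / ε) * (ε * l ^ 8) :=
    mul_le_mul_of_nonneg_right hxj (by positivity)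
  have h2 : |y j| * (l ^ 68 / ε) ≤ 5 * (ε * l ^ 8) * ‖u‖ * (l ^ 68 / ε) :=
    mul_le_mul_of_nonneg_right hyj (by positivity)
  have h3 : ‖u‖ * (l ^ 312 / ε) * (ε * l ^ 8) = ‖u‖ * l ^ 320 := by
    field_simp
  have h4 : 5 * (ε * l ^ 8) * ‖u‖ * (l ^ 68 / ε) = ‖u‖ * (5 * l ^ 76) := by
    field_simp
  have h5 : l ^ 320 + 5 * l ^ 76 ≤ l ^ 330 := by
    have h6 : l ^ 76 ≤ l ^ 320 := pow_le_pow_right₀ h1l (by norm_num)
    have h7 : l ^ 321 ≤ l ^ 330 := pow_le_pow_right₀ h1l (by norm_num)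
    have h8 : l ^ 321 = l * l ^ 320 := by ring
    have h9 : 0 ≤ l ^ 320 := by positivity
    nlinarith
  calc |x j| * (ε * l ^ 8) + |y j| * (l ^ 68 / ε) ≤ ‖u‖ * l ^ 320 + ‖u‖ * (5 * l ^ 76) := by
        rw [← h3, ← h4]
        exact add_le_add h1 h2
    _ = (l ^ 320 + 5 * l ^ 76) * ‖u‖ := by ring
    _ ≤ l ^ 330 * ‖u‖ := mul_le_mul_of_nonneg_right h5 hU

end Pool.Agent.PRT.H36
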